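import Mathlib

/-! MP_a19305_co, cyclic family `n (n - 3) / 6` (helper64): values of linear forms. -/

set_option autoImplicit false

namespace Pool.Agent.K64

/-- value at the point `k` of a corner `e` (`x_e = 1`, `x_{e+1} = q N^k / N^m`,
`x_{e+2} = 1 / (q N^k)`, `h = k`, `N = q^6`) of the linear form with coefficients `c` at `x_e`,
`a` at `x_{e+1}`, `b` at `x_{e+2}`, `g` at `h`.  At the corner `e+1` the same form has the value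
`W q m a b c g k`, at the corner `e+2` the value `W q m b c a g k`. -/
noncomputable def W (q : ℝ) (m : ℕ) (c a b g : ℝ) (k : ℕ) : ℝ :=
  c + g * k + a * (q * (q ^ 6) ^ k / (q ^ 6) ^ m) + b / (q * (q ^ 6) ^ k)

/-- the three values of the standard form `c, N^m / q, - 2 q^4 N^s, g` -/
lemma W0_eq {q : ℝ} (hq : 0 < q) (m s k : ℕ) (c g : ℝ) :
    W q m c ((q ^ 6) ^ m / q) (-2 * q ^ 4 * (q ^ 6) ^ s) g k =
      c + g * k + (q ^ 6) ^ k - 2 * q ^ 3 * (q ^ 6) ^ s / (q ^ 6) ^ k := by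
  unfold W; field_simp <;> ring

lemma W1_eq {q : ℝ} (hq : 0 < q) (m s k : ℕ) (c g : ℝ) :
    W q m ((q ^ 6) ^ m / q) (-2 * q ^ 4 * (q ^ 6) ^ s) c g k =
      (q ^ 6) ^ m / q + g * k - 2 * q ^ 5 * (q ^ 6) ^ s * (q ^ 6) ^ k / (q ^ 6) ^ m
        + c / (q * (q ^ 6) ^ k) := by
  unfold W; field_simp <;> ring

lemma W2_eq {q : ℝ} (hq : 0 < q) (m s k : ℕ) (c g : ℝ) :
    W q m (-2 * q ^ 4 * (q ^ 6) ^ s) c ((q ^ 6) ^ m / q) g k =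
      -2 * q ^ 4 * (q ^ 6) ^ s + g * k + c * (q * (q ^ 6) ^ k / (q ^ 6) ^ m)
        + (q ^ 6) ^ m / (q ^ 2 * (q ^ 6) ^ k) := by
  unfold W; field_simp <;> ring

/-- case A: both triangles have two vertices in the corner 0, `i + j < a + b`; the first one is
negative, the second one positive -/
def CaseA : Prop := ∀ (q : ℝ) (m i j a b : ℕ), 100 * (m : ℝ) ≤ q → i < j → j < m → a < b → b < m →
  i + j < a + b → ∃ f0 f1 f2 g : ℝ,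
    (i ≠ a → i ≠ b → W q m f0 f1 f2 g i < 0) ∧ (i = a ∨ i = b → W q m f0 f1 f2 g i = 0) ∧
    (j ≠ a → j ≠ b → W q m f0 f1 f2 g j < 0) ∧ (j = a ∨ j = b → W q m f0 f1 f2 g j = 0) ∧
    (a ≠ i → a ≠ j → 0 < W q m f0 f1 f2 g a) ∧ (b ≠ i → b ≠ j → 0 < W q m f0 f1 f2 g b) ∧
    (m ≤ i + j → W q m f1 f2 f0 g (2 * m - 1 - (i + j)) < 0) ∧
    (i + j < m → W q m f2 f0 f1 g (m - 1 - (i + j)) < 0) ∧
    (m ≤ a + b → 0 < W q m f1 f2 f0 g (2 * m - 1 - (a + b))) ∧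
    (a + b < m → 0 < W q m f2 f0 f1 g (m - 1 - (a + b)))

/-- case E: same corner, same third vertex, `(a, b)` inside `(i, j)` -/
def CaseE : Prop := ∀ (q : ℝ) (m i j a b : ℕ), 100 * (m : ℝ) ≤ q → i < a → a < b → b < j → j < m →
  i + j = a + b → ∃ f0 f1 f2 g : ℝ,
    W q m f0 f1 f2 g i < 0 ∧ W q m f0 f1 f2 g j < 0 ∧
    0 < W q m f0 f1 f2 g a ∧ 0 < W q m f0 f1 f2 g b ∧
    (m ≤ i + j → W q m f1 f2 f0 g (2 * m - 1 - (i + j)) = 0) ∧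
    (i + j < m → W q m f2 f0 f1 g (m - 1 - (i + j)) = 0)

/-- case B1: `(0,i) (0,j) (1,l)` negative, `(1,a) (1,b) (2,k)` positive -/
def CaseB1 : Prop := ∀ (q : ℝ) (m i j l a b k : ℕ), 100 * (m : ℝ) ≤ q → i < j → j < m → l < m →
  a < b → b < m → k < m → i + j + l + 1 = 2 * m → a + b + k + 1 = 2 * m → ∃ f0 f1 f2 g : ℝ,
    W q m f0 f1 f2 g i < 0 ∧ W q m f0 f1 f2 g j < 0 ∧
    (l ≠ a → l ≠ b → W q m f1 f2 f0 g l < 0) ∧ (l = a ∨ l = b → W q m f1 f2 f0 g l = 0) ∧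
    (a ≠ l → 0 < W q m f1 f2 f0 g a) ∧ (b ≠ l → 0 < W q m f1 f2 f0 g b) ∧
    0 < W q m f2 f0 f1 g k

/-- case B2: `(0,i) (0,j) (1,l)` negative, `(1,a) (1,b) (0,k)` positive -/
def CaseB2 : Prop := ∀ (q : ℝ) (m i j l a b k : ℕ), 100 * (m : ℝ) ≤ q → i < j → j < m → l < m →
  a < b → b < m → k < m → i + j + l + 1 = 2 * m → a + b + k + 1 = m → ∃ f0 f1 f2 g : ℝ,
    (i ≠ k → W q m f0 f1 f2 g i < 0) ∧ (j ≠ k → W q m f0 f1 f2 g j < 0) ∧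
    (k ≠ i → k ≠ j → 0 < W q m f0 f1 f2 g k) ∧ (k = i ∨ k = j → W q m f0 f1 f2 g k = 0) ∧
    (l ≠ a → l ≠ b → W q m f1 f2 f0 g l < 0) ∧ (l = a ∨ l = b → W q m f1 f2 f0 g l = 0) ∧
    (a ≠ l → 0 < W q m f1 f2 f0 g a) ∧ (b ≠ l → 0 < W q m f1 f2 f0 g b)

/-- case B3: `(0,i) (0,j) (2,l)` negative, `(1,a) (1,b) (2,k)` positive -/
def CaseB3 : Prop := ∀ (q : ℝ) (m i j l a b k : ℕ), 100 * (m : ℝ) ≤ q → i < j → j < m → l < m →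
  a < b → b < m → k < m → i + j + l + 1 = m → a + b + k + 1 = 2 * m → ∃ f0 f1 f2 g : ℝ,
    W q m f0 f1 f2 g i < 0 ∧ W q m f0 f1 f2 g j < 0 ∧
    (l ≠ k → W q m f2 f0 f1 g l < 0) ∧ (l = k → W q m f2 f0 f1 g l = 0) ∧
    0 < W q m f1 f2 f0 g a ∧ 0 < W q m f1 f2 f0 g b ∧ (k ≠ l → 0 < W q m f2 f0 f1 g k)

/-- case B4: `(0,i) (0,j) (2,l)` negative, `(1,a) (1,b) (0,k)` positive -/
def CaseB4 : Prop := ∀ (q : ℝ) (m i j l a b k : ℕ), 100 * (m : ℝ) ≤ q → i < j → j < m → l < m →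
  a < b → b < m → k < m → i + j + l + 1 = m → a + b + k + 1 = m → ∃ f0 f1 f2 g : ℝ,
    (i ≠ k → W q m f0 f1 f2 g i < 0) ∧ (j ≠ k → W q m f0 f1 f2 g j < 0) ∧
    (k ≠ i → k ≠ j → 0 < W q m f0 f1 f2 g k) ∧ (k = i ∨ k = j → W q m f0 f1 f2 g k = 0) ∧
    W q m f2 f0 f1 g l < 0 ∧ 0 < W q m f1 f2 f0 g a ∧ 0 < W q m f1 f2 f0 g b

end Pool.Agent.K64
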