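import Pool.Agent.K64.Cases

/-! shared estimates for the cyclic family -/

set_option autoImplicit false

namespace Pool.Agent.K64

lemma q_ge {q : ℝ} {m : ℕ} (hq : 100 * (m : ℝ) ≤ q) (hm : 0 < m) : 100 ≤ q := by
  have : (1 : ℝ) ≤ m := by exact_mod_cast hm
  linarith

lemma pN_pos {q : ℝ} (hq : 0 < q) (x : ℕ) : 0 < (q ^ 6) ^ x := by positivity

lemma pN_lt {q : ℝ} (hq : 1 ≤ q) {x y : ℕ} (h : x < y) : q ^ 6 * (q ^ 6) ^ x ≤ (q ^ 6) ^ y := by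
  rw [← pow_succ']
  exact pow_le_pow_right₀ (one_le_pow₀ hq) h

lemma pN_le {q : ℝ} (hq : 1 ≤ q) {x y : ℕ} (h : x ≤ y) : (q ^ 6) ^ x ≤ (q ^ 6) ^ y :=
  pow_le_pow_right₀ (one_le_pow₀ hq) h

lemma dN_le {q : ℝ} (hq : 1 ≤ q) {s k d : ℕ} (h : s ≤ k + d) :
    (q ^ 6) ^ s / (q ^ 6) ^ k ≤ (q ^ 6) ^ d := by
  rw [div_le_iff₀ (pN_pos (by linarith) k), ← pow_add]
  exact pN_le hq (by omega)

lemma dN_ge {q : ℝ} (hq : 1 ≤ q) {s k d : ℕ} (h : k + d ≤ s) :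
    (q ^ 6) ^ d ≤ (q ^ 6) ^ s / (q ^ 6) ^ k := by
  rw [le_div_iff₀ (pN_pos (by linarith) k), ← pow_add]
  exact pN_le hq (by omega)

lemma dN_pos {q : ℝ} (hq : 0 < q) (s k : ℕ) : 0 < (q ^ 6) ^ s / (q ^ 6) ^ k := by positivity

/-- `φ_s (k) = N^k - 2 q^3 N^s / N^k` -/
noncomputable def phi (q : ℝ) (s k : ℕ) : ℝ :=
  (q ^ 6) ^ k - 2 * q ^ 3 * (q ^ 6) ^ s / (q ^ 6) ^ k

lemma phi_eq (q : ℝ) (s k : ℕ) :
    phi q s k = (q ^ 6) ^ k - 2 * q ^ 3 * ((q ^ 6) ^ s / (q ^ 6) ^ k) := by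
  unfold phi; ring

lemma W0_phi {q : ℝ} (hq : 0 < q) (m s k : ℕ) (c g : ℝ) :
    W q m c ((q ^ 6) ^ m / q) (-2 * q ^ 4 * (q ^ 6) ^ s) g k = c + g * k + phi q s k := by
  rw [W0_eq hq]; unfold phi; ring

lemma phi_lt {q : ℝ} (hq : 100 ≤ q) (s : ℕ) {k l : ℕ} (h : k < l) : phi q s k < phi q s l := by
  have h1 : (1 : ℝ) ≤ q := by linarith
  have hk := pN_pos (q := q) (by linarith) k
  have h2 := pN_lt h1 h
  have h6 : (2 : ℝ) ≤ q ^ 6 := le_trans (by linarith : (2 : ℝ) ≤ q) (by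
    have := pow_le_pow_right₀ h1 (show 1 ≤ 6 by norm_num); simpa using this)
  have h3 : (q ^ 6) ^ k < (q ^ 6) ^ l := by nlinarith
  have h4 : 2 * q ^ 3 * (q ^ 6) ^ s / (q ^ 6) ^ l ≤ 2 * q ^ 3 * (q ^ 6) ^ s / (q ^ 6) ^ k :=
    div_le_div_of_nonneg_left (by positivity) hk h3.le
  unfold phi
  linarith

lemma phi_le_pow {q : ℝ} (hq : 0 < q) (s k : ℕ) : phi q s k ≤ (q ^ 6) ^ k := by
  have : 0 ≤ 2 * q ^ 3 * (q ^ 6) ^ s / (q ^ 6) ^ k := by positivity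
  unfold phi; linarith

/-- corner `e+1` is positive below the threshold -/
lemma W1_pos {q : ℝ} (hq : 100 ≤ q) {m s k : ℕ} {c g : ℝ} (_hk : k < m) (h : s + k + 2 ≤ 2 * m)
    (hg : -((q ^ 6) ^ m / (4 * q)) ≤ g * k) (hc : -((q ^ 6) ^ m / 4) ≤ c) :
    0 < W q m ((q ^ 6) ^ m / q) (-2 * q ^ 4 * (q ^ 6) ^ s) c g k := by
  have h0 : 0 < q := by linarith
  have h1 : (1 : ℝ) ≤ q := by linarith
  rw [W1_eq h0]
  have hm := pN_pos h0 m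
  have hkp := pN_pos h0 k
  have e1 : 2 * q ^ 5 * (q ^ 6) ^ s * (q ^ 6) ^ k / (q ^ 6) ^ m ≤ (q ^ 6) ^ m / (4 * q) := by
    rw [div_le_div_iff₀ hm (by positivity)]
    have a1 : (q ^ 6) ^ s * (q ^ 6) ^ k * (q ^ 6) ^ 2 ≤ (q ^ 6) ^ m * (q ^ 6) ^ m := by
      rw [← pow_add, ← pow_add, ← pow_add]
      exact pN_le h1 (by omega)
    have a2 : 8 * q ^ 6 ≤ (q ^ 6) ^ 2 := by
      have : (8 : ℝ) ≤ q ^ 6 := le_trans (by linarith : (8 : ℝ) ≤ q) (by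
        have := pow_le_pow_right₀ h1 (show 1 ≤ 6 by norm_num); simpa using this)
      nlinarith [pow_pos h0 6]
    have a3 : 0 < (q ^ 6) ^ s * (q ^ 6) ^ k := by positivity
    calc 2 * q ^ 5 * (q ^ 6) ^ s * (q ^ 6) ^ k * (4 * q)
        = ((q ^ 6) ^ s * (q ^ 6) ^ k) * (8 * q ^ 6) := by ring
      _ ≤ ((q ^ 6) ^ s * (q ^ 6) ^ k) * (q ^ 6) ^ 2 := mul_le_mul_of_nonneg_left a2 a3.le
      _ ≤ _ := a1
  have e2 : -((q ^ 6) ^ m / (4 * q)) ≤ c / (q * (q ^ 6) ^ k) := by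
    rw [← neg_div, div_le_div_iff₀ (by positivity) (by positivity)]
    have b1 : (1 : ℝ) ≤ (q ^ 6) ^ k := one_le_pow₀ (one_le_pow₀ h1)
    by_cases hc0 : 0 ≤ c
    · have : 0 ≤ c * (4 * q) := by positivity
      have : 0 ≤ (q ^ 6) ^ m * (q * (q ^ 6) ^ k) := by positivity
      linarith
    · have : -((q ^ 6) ^ m) ≤ 4 * c := by linarith
      have b2 : -((q ^ 6) ^ m) * q ≤ c * (4 * q) := by nlinarith
      have b3 : (q ^ 6) ^ m * q ≤ (q ^ 6) ^ m * (q * (q ^ 6) ^ k) := by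
        apply mul_le_mul_of_nonneg_left _ hm.le
        nlinarith
      linarith
  have e3 : (q ^ 6) ^ m / q = 4 * ((q ^ 6) ^ m / (4 * q)) := by field_simp
  have e4 : 0 < (q ^ 6) ^ m / (4 * q) := by positivity
  linarith

/-- corner `e+1` is negative above the threshold -/
lemma W1_neg {q : ℝ} (hq : 100 ≤ q) {m s k : ℕ} {c g : ℝ} (h : 2 * m ≤ s + k + 1)
    (hg : g * k + c / (q * (q ^ 6) ^ k) < (q ^ 6) ^ m / q) :
    W q m ((q ^ 6) ^ m / q) (-2 * q ^ 4 * (q ^ 6) ^ s) c g k < 0 := by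
  have h0 : 0 < q := by linarith
  have h1 : (1 : ℝ) ≤ q := by linarith
  rw [W1_eq h0]
  have hm := pN_pos h0 m
  have e1 : 2 * ((q ^ 6) ^ m / q) ≤ 2 * q ^ 5 * (q ^ 6) ^ s * (q ^ 6) ^ k / (q ^ 6) ^ m := by
    rw [← mul_div_assoc, div_le_div_iff₀ h0 hm]
    have a1 : (q ^ 6) ^ m * (q ^ 6) ^ m ≤ (q ^ 6) ^ s * (q ^ 6) ^ k * (q ^ 6) ^ 1 := by
      rw [← pow_add, ← pow_add, ← pow_add]
      exact pN_le h1 (by omega)
    calc 2 * (q ^ 6) ^ m * (q ^ 6) ^ m = 2 * ((q ^ 6) ^ m * (q ^ 6) ^ m) := by ring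
      _ ≤ 2 * ((q ^ 6) ^ s * (q ^ 6) ^ k * (q ^ 6) ^ 1) := by linarith
      _ = _ := by ring
  linarith

/-- corner `e+2` is negative above the threshold -/
lemma W2_neg {q : ℝ} (hq : 100 ≤ q) {m s k : ℕ} {c g : ℝ} (h : m ≤ s + k + 1)
    (hg : g * k + c * (q * (q ^ 6) ^ k / (q ^ 6) ^ m) < q ^ 4 * (q ^ 6) ^ s) :
    W q m (-2 * q ^ 4 * (q ^ 6) ^ s) c ((q ^ 6) ^ m / q) g k < 0 := by
  have h0 : 0 < q := by linarith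
  have h1 : (1 : ℝ) ≤ q := by linarith
  rw [W2_eq h0]
  have e1 : (q ^ 6) ^ m / (q ^ 2 * (q ^ 6) ^ k) ≤ q ^ 4 * (q ^ 6) ^ s := by
    rw [div_le_iff₀ (by positivity)]
    have a1 : (q ^ 6) ^ m ≤ (q ^ 6) ^ s * (q ^ 6) ^ k * (q ^ 6) ^ 1 := by
      rw [← pow_add, ← pow_add]
      exact pN_le h1 (by omega)
    calc (q ^ 6) ^ m ≤ (q ^ 6) ^ s * (q ^ 6) ^ k * (q ^ 6) ^ 1 := a1
      _ = _ := by ring
  linarith

/-- corner `e+2` is positive below the threshold -/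
lemma W2_pos {q : ℝ} (hq : 100 ≤ q) {m s k : ℕ} {c g : ℝ} (h : s + k + 2 ≤ m)
    (hg : -((q ^ 6) ^ m / (q ^ 2 * (q ^ 6) ^ k) / 2) < g * k + c * (q * (q ^ 6) ^ k / (q ^ 6) ^ m)) :
    0 < W q m (-2 * q ^ 4 * (q ^ 6) ^ s) c ((q ^ 6) ^ m / q) g k := by
  have h0 : 0 < q := by linarith
  have h1 : (1 : ℝ) ≤ q := by linarith
  rw [W2_eq h0]
  have e1 : 2 * q ^ 4 * (q ^ 6) ^ s ≤ (q ^ 6) ^ m / (q ^ 2 * (q ^ 6) ^ k) / 2 := by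
    rw [le_div_iff₀ (by norm_num : (0 : ℝ) < 2), le_div_iff₀ (by positivity)]
    have a1 : (q ^ 6) ^ s * (q ^ 6) ^ k * (q ^ 6) ^ 2 ≤ (q ^ 6) ^ m := by
      rw [← pow_add, ← pow_add]
      exact pN_le h1 (by omega)
    have a2 : 4 * q ^ 6 ≤ (q ^ 6) ^ 2 := by
      have : (4 : ℝ) ≤ q ^ 6 := le_trans (by linarith : (4 : ℝ) ≤ q) (by
        have := pow_le_pow_right₀ h1 (show 1 ≤ 6 by norm_num); simpa using this)
      nlinarith [pow_pos h0 6]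
    have a3 : 0 < (q ^ 6) ^ s * (q ^ 6) ^ k := by positivity
    calc 2 * q ^ 4 * (q ^ 6) ^ s * 2 * (q ^ 2 * (q ^ 6) ^ k)
        = ((q ^ 6) ^ s * (q ^ 6) ^ k) * (4 * q ^ 6) := by ring
      _ ≤ ((q ^ 6) ^ s * (q ^ 6) ^ k) * (q ^ 6) ^ 2 := mul_le_mul_of_nonneg_left a2 a3.le
      _ ≤ _ := a1
  linarith

end Pool.Agent.K64
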